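import Pool.Agent.Y922.NV.Stm

set_option autoImplicit false

/-!
Project NV, part NEV: the rational functions are Nevanlinna functions (helper217).
-/

namespace Pool.Agent.Y217.NV

open Complex ComplexConjugate Pool.Agent.Y922.NV

variable {ι : Type} (s : Finset ι) (a : ι → ℂ)

theorem analytic_PP (z : ℂ) : AnalyticAt ℂ (PP s a) z := by
  have h : Differentiable ℂ (PP s a) := by
    unfold PP
    fun_prop
  exact h.analyticAt z

theorem analytic_QQ (z : ℂ) : AnalyticAt ℂ (QQ s a) z := by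
  have h : Differentiable ℂ (QQ s a) := by
    unfold QQ
    fun_prop
  exact h.analyticAt z

theorem prod_lt {f g : ι → ℝ} (hs : s.Nonempty) (h0 : ∀ i ∈ s, 0 ≤ f i)
    (h : ∀ i ∈ s, f i < g i) : ∏ i ∈ s, f i < ∏ i ∈ s, g i := by
  by_cases hz : ∃ i ∈ s, f i = 0
  · obtain ⟨i, hi, hi0⟩ := hz
    rw [Finset.prod_eq_zero hi hi0]
    exact Finset.prod_pos fun j hj => lt_of_le_of_lt (h0 j hj) (h j hj)
  · push Not at hz
    exact Finset.prod_lt_prod_of_nonempty (fun i hi => lt_of_le_of_ne (h0 i hi) (hz i hi).symm) h hs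

theorem nsq_PP (z : ℂ) : normSq (PP s a z) = ∏ i ∈ s, normSq (z - a i) := by
  unfold PP
  rw [map_prod]

theorem nsq_QQ (z : ℂ) : normSq (QQ s a z) = ∏ i ∈ s, normSq (z - conj (a i)) := by
  unfold QQ
  rw [map_prod]

theorem nsq_sub (z b : ℂ) : normSq (z - conj b) - normSq (z - b) = 4 * z.im * b.im := by
  simp only [normSq_apply, sub_re, sub_im, conj_re, conj_im]
  ring

theorem lt_pos (hs : s.Nonempty) (ha : ∀ i ∈ s, 0 < (a i).im) (z : ℂ) (hz : 0 < z.im) :
    normSq (PP s a z) < normSq (QQ s a z) := by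
  rw [nsq_PP, nsq_QQ]
  refine prod_lt s hs (fun i _ => normSq_nonneg _) fun i hi => ?_
  have h1 := nsq_sub z (a i)
  have h2 := mul_pos hz (ha i hi)
  nlinarith

theorem lt_neg (hs : s.Nonempty) (ha : ∀ i ∈ s, 0 < (a i).im) (z : ℂ) (hz : z.im < 0) :
    normSq (QQ s a z) < normSq (PP s a z) := by
  rw [nsq_PP, nsq_QQ]
  refine prod_lt s hs (fun i _ => normSq_nonneg _) fun i hi => ?_
  have h1 := nsq_sub z (a i)
  have h2 := mul_neg_of_neg_of_pos hz (ha i hi)
  nlinarith

theorem im_MM (z : ℂ) : (MM s a z).im =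
    (normSq (QQ s a z) - normSq (PP s a z)) / normSq (QQ s a z - PP s a z) := by
  unfold MM
  rw [div_im]
  simp only [mul_im, mul_re, I_re, I_im, add_re, add_im, sub_re, sub_im, zero_mul, one_mul,
    zero_add, zero_sub]
  rw [← sub_div]
  congr 1
  rw [normSq_apply, normSq_apply]
  ring

theorem sub_ne (hs : s.Nonempty) (ha : ∀ i ∈ s, 0 < (a i).im) (z : ℂ) (hz : z.im ≠ 0) :
    QQ s a z - PP s a z ≠ 0 := by
  intro h
  rw [sub_eq_zero] at h
  rcases lt_or_gt_of_ne hz with hz | hz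
  · have := lt_neg s a hs ha z hz
    rw [h] at this
    exact lt_irrefl _ this
  · have := lt_pos s a hs ha z hz
    rw [h] at this
    exact lt_irrefl _ this

theorem t_NEV : S_NEV := by
  intro ι s a hs ha
  have hnum : ∀ z, AnalyticAt ℂ (fun z => I * (QQ s a z + PP s a z)) z := fun z =>
    analyticAt_const.mul ((analytic_QQ s a z).add (analytic_PP s a z))
  have hden : ∀ z, AnalyticAt ℂ (fun z => QQ s a z - PP s a z) z := fun z =>
    (analytic_QQ s a z).sub (analytic_PP s a z)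
  refine ⟨?_, ?_, ?_, ?_⟩
  · intro z
    exact (hnum z).meromorphicAt.div (hden z).meromorphicAt
  · intro z hz
    exact (hnum z).div (hden z) (sub_ne s a hs ha z hz)
  · intro z hz
    rw [im_MM]
    exact div_pos (sub_pos.2 (lt_pos s a hs ha z hz)) (normSq_pos.2 (sub_ne s a hs ha z hz.ne'))
  · intro z hz
    rw [im_MM]
    exact div_neg_of_neg_of_pos (sub_neg.2 (lt_neg s a hs ha z hz))
      (normSq_pos.2 (sub_ne s a hs ha z hz.ne))

end Pool.Agent.Y217.NV
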